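import Mathlib

set_option autoImplicit false

/-! Project NSH: a proof of frozen S06857 (Nazarov and Shapiro). Definitions and the exact row statements. -/

open Complex Metric Set Filter Topology MeasureTheory
open scoped ComplexConjugate

namespace Pool.Agent.NSH

/-- holomorphic self-map of the open unit disc -/
def SelfMap (φ : ℂ → ℂ) : Prop :=
  DifferentiableOn ℂ φ (ball (0:ℂ) 1) ∧ MapsTo φ (ball (0:ℂ) 1) (ball (0:ℂ) 1)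

/-- the point e^{iθ} -/
noncomputable def ee (θ : ℝ) : ℂ := Complex.exp (θ * Complex.I)

/-- the monotone quotient -/
noncomputable def Q (φ : ℂ → ℂ) (ζ : ℂ) (r : ℝ) : ℝ :=
  (1 + r) * (1 - ‖φ (r * ζ)‖) / ((1 - r) * (1 + ‖φ (r * ζ)‖))

/-- the radius 1 - s/n -/
noncomputable def rr (s n : ℕ) : ℝ := 1 - (s:ℝ) / (n:ℝ)

/-- the integrand -/
noncomputable def G (φ : ℂ → ℂ) (j k s n : ℕ) (ζ : ℂ) : ℂ :=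
  φ ((rr s n : ℝ) * ζ) ^ (n + j) / (((rr s n : ℝ) : ℂ) * ζ) ^ (n + k)

/-- F(z) = z φ'(z) - φ(z) -/
noncomputable def FF (φ : ℂ → ℂ) (z : ℂ) : ℂ := z * deriv φ z - φ z

/-- row 1: Schwarz-Pick, difference form -/
def P01 : Prop := ∀ g : ℂ → ℂ, DifferentiableOn ℂ g (ball (0:ℂ) 1) →
  MapsTo g (ball (0:ℂ) 1) (closedBall (0:ℂ) 1) →
  ∀ z ∈ ball (0:ℂ) 1, ∀ w ∈ ball (0:ℂ) 1,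
    ‖g z - g w‖ * ‖1 - conj w * z‖ ≤ ‖z - w‖ * ‖1 - conj (g w) * g z‖

/-- row 2: Schwarz-Pick, squared form and derivative form -/
def P02 : Prop := ∀ φ : ℂ → ℂ, SelfMap φ → ∀ z ∈ ball (0:ℂ) 1,
  ‖deriv φ z‖ * (1 - ‖z‖ ^ 2) ≤ 1 - ‖φ z‖ ^ 2 ∧
  ∀ w ∈ ball (0:ℂ) 1,
    ‖1 - conj (φ w) * φ z‖ ^ 2 * ((1 - ‖z‖ ^ 2) * (1 - ‖w‖ ^ 2)) ≤
      ‖1 - conj w * z‖ ^ 2 * ((1 - ‖φ z‖ ^ 2) * (1 - ‖φ w‖ ^ 2))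

/-- row 3: second order Schwarz-Pick (Schwarz-Pick for u ↦ f(u)/u) -/
def P03 : Prop := ∀ φ : ℂ → ℂ, SelfMap φ → ∀ z ∈ ball (0:ℂ) 1, ∀ y ∈ ball (0:ℂ) 1, y ≠ z →
  ∀ u γ D : ℂ, u = (y - z) / (1 - conj z * y) →
    γ = (φ y - φ z) / (1 - conj (φ z) * φ y) / u →
    D = deriv φ z * ((1 - ‖z‖ ^ 2 : ℝ) : ℂ) / ((1 - ‖φ z‖ ^ 2 : ℝ) : ℂ) →
    ‖D - γ‖ * (1 - ‖u‖) ≤ ‖u‖ * (1 - ‖γ‖ ^ 2)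

/-- row 4: the quotient Q is nondecreasing -/
def P04 : Prop := ∀ φ : ℂ → ℂ, SelfMap φ → ∀ ζ : ℂ, ‖ζ‖ = 1 →
  MonotoneOn (Q φ ζ) (Ico (0:ℝ) 1)

/-- row 5: the function x = e^{1-d} -/
def P05 : Prop := ∀ φ : ℂ → ℂ, SelfMap φ → ∃ x : ℝ → ℝ, Measurable x ∧
  ∀ θ : ℝ, 0 ≤ x θ ∧ x θ ≤ Real.exp 1 ∧
    ((x θ = 0 ∧ Tendsto (Q φ (ee θ)) (𝓝[<] (1:ℝ)) atTop) ∨
     (0 < x θ ∧ Tendsto (Q φ (ee θ)) (𝓝[<] (1:ℝ)) (𝓝 (1 - Real.log (x θ))) ∧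
      ∀ r ∈ Ico (0:ℝ) 1, Q φ (ee θ) r ≤ 1 - Real.log (x θ)))

/-- row 6 (Step 2): d infinite -/
def P06 : Prop := ∀ φ : ℂ → ℂ, SelfMap φ → ∀ ζ : ℂ, ‖ζ‖ = 1 →
  Tendsto (Q φ ζ) (𝓝[<] (1:ℝ)) atTop → ∀ j k s : ℕ, 1 ≤ s →
  Tendsto (fun n : ℕ => G φ j k s n ζ) atTop (𝓝 0)

/-- row 7: the two point limit -/
def P07 : Prop := ∀ φ : ℂ → ℂ, SelfMap φ → ∀ ζ : ℂ, ‖ζ‖ = 1 → ∀ d : ℝ,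
  Tendsto (Q φ ζ) (𝓝[<] (1:ℝ)) (𝓝 d) →
  ∀ (α : Type) (l : Filter α) (r r' : α → ℝ), Tendsto r l (𝓝[<] (1:ℝ)) → Tendsto r' l (𝓝[<] (1:ℝ)) →
    Tendsto (fun a => ‖φ (r a * ζ)‖) l (𝓝 1) ∧
    Tendsto (fun a => (1 - ‖φ (r a * ζ)‖) / (1 - r a)) l (𝓝 d) ∧
    Tendsto (fun a => (1 - conj (φ (r a * ζ)) * φ (r' a * ζ)) / (((1 - r a) + (1 - r' a) : ℝ) : ℂ)) l
      (𝓝 (d:ℂ))

/-- row 8: bound of the integrand -/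
def P08 : Prop := ∀ φ : ℂ → ℂ, SelfMap φ → ∀ ζ : ℂ, ‖ζ‖ = 1 → ∀ j k s n : ℕ, 1 ≤ s → 2 * s ≤ n →
  ‖G φ j k s n ζ‖ ≤ Real.exp (2 * s * (1 + k))

/-- row 9: Cauchy's formula and continuity of the integrand in the angle -/
def P09 : Prop := ∀ φ : ℂ → ℂ, SelfMap φ → ∀ j k s n : ℕ, 1 ≤ s → 2 * s ≤ n →
  Continuous (fun θ : ℝ => G φ j k s n (ee θ)) ∧
  iteratedDeriv (n + k) (fun z => φ z ^ (n + j)) 0 / ((n + k).factorial : ℂ) =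
    (2 * Real.pi : ℝ)⁻¹ • ∫ θ in (0:ℝ)..(2 * Real.pi), G φ j k s n (ee θ)

/-- row 10 (Step 3): d finite -/
def P10 : Prop := ∀ φ : ℂ → ℂ, SelfMap φ → ∀ ζ : ℂ, ‖ζ‖ = 1 → ∀ d : ℝ,
  Tendsto (Q φ ζ) (𝓝[<] (1:ℝ)) (𝓝 d) → ∀ j k i : ℕ,
  Tendsto (fun n : ℕ => G φ j k (1 + i) n ζ - ((Real.exp (1 - d) ^ i : ℝ) : ℂ) * G φ j k 1 n ζ)
    atTop (𝓝 0)

/-- row 11 (Step 4), abstract -/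
def P11 : Prop := ∀ (c : ℕ → ℂ) (g : ℕ → ℕ → ℝ → ℂ) (x : ℝ → ℝ) (C : ℕ → ℝ),
  Measurable x → (∀ θ, 0 ≤ x θ ∧ x θ ≤ Real.exp 1) →
  (∀ i, ∀ᶠ n in atTop, Continuous (g i n) ∧ (∀ θ, ‖g i n θ‖ ≤ C i) ∧
    c n = (2 * Real.pi : ℝ)⁻¹ • ∫ θ in (0:ℝ)..(2 * Real.pi), g i n θ) →
  (∀ i θ, Tendsto (fun n => g i n θ - ((x θ ^ i : ℝ) : ℂ) * g 0 n θ) atTop (𝓝 0)) →
  volume (Ioc (0:ℝ) (2 * Real.pi) ∩ {θ | x θ = 1}) = 0 →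
  Tendsto c atTop (𝓝 0)

/-- row 12 (5a) -/
def P12 : Prop := ∀ φ : ℂ → ℂ, SelfMap φ → ∀ ζ : ℂ, ‖ζ‖ = 1 →
  Tendsto (Q φ ζ) (𝓝[<] (1:ℝ)) (𝓝 1) →
  Tendsto (fun r : ℝ => FF φ (r * ζ)) (𝓝[<] (1:ℝ)) (𝓝 0)

/-- row 13 (5b) -/
def P13 : Prop := ∀ φ : ℂ → ℂ, SelfMap φ → ∀ z ∈ ball (0:ℂ) 1, ∀ ζ : ℂ, ‖ζ‖ = 1 →
  (∀ r ∈ Ico (0:ℝ) 1, r ≤ ‖φ (r * ζ)‖) → ‖z - ‖z‖ * ζ‖ ≤ 1 - ‖z‖ → ‖FF φ z‖ ≤ 17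

/-- row 14 (5d) -/
def P14 : Prop := ∀ φ : ℂ → ℂ, SelfMap φ → (∀ z ∈ ball (0:ℂ) 1, FF φ z = 0) →
  ∀ ζ : ℂ, ‖ζ‖ = 1 → (∀ r ∈ Ico (0:ℝ) 1, r ≤ ‖φ (r * ζ)‖) →
  ∃ c : ℂ, ‖c‖ = 1 ∧ ∀ z ∈ ball (0:ℂ) 1, φ z = c * z

/-- indicator of a set, real valued -/
noncomputable def ind (E : Set ℂ) (ζ : ℂ) : ℝ := E.indicator (fun _ => (1:ℝ)) ζ

/-- Herglotz integral of the indicator of E -/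
noncomputable def HH (E : Set ℂ) (z : ℂ) : ℂ :=
  Real.circleAverage (fun ζ => herglotzRieszKernel 0 z ζ • ((ind E ζ : ℝ) : ℂ)) 0 1

/-- its real part, the Poisson integral of the indicator of E -/
noncomputable def hh (E : Set ℂ) (z : ℂ) : ℝ := (HH E z).re

/-- row 15: basic facts on h -/
def P15 : Prop := ∀ E : Set ℂ, IsCompact E → E ⊆ sphere (0:ℂ) 1 →
  CircleIntegrable (ind E) 0 1 ∧ DifferentiableOn ℂ (HH E) (ball (0:ℂ) 1) ∧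
  (∀ z ∈ ball (0:ℂ) 1, hh E z =
    Real.circleAverage (fun ζ => (1 - ‖z‖ ^ 2) / ‖ζ - z‖ ^ 2 * ind E ζ) 0 1) ∧
  (∀ z ∈ ball (0:ℂ) 1, 0 ≤ hh E z ∧ hh E z ≤ 1) ∧
  (∀ z ∈ ball (0:ℂ) 1, Real.circleAverage (fun ζ => (1 - ‖z‖ ^ 2) / ‖ζ - z‖ ^ 2) 0 1 = 1)

/-- row 16 (i): the shadow lemma -/
def P16 : Prop := ∀ E : Set ℂ, IsCompact E → E ⊆ sphere (0:ℂ) 1 → ∀ z ∈ ball (0:ℂ) 1,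
  (∀ ζ ∈ E, 1 - ‖z‖ < ‖z - ‖z‖ * ζ‖) → hh E z ≤ 1 - 1 / 16

/-- row 17 (ii) -/
def P17 : Prop := ∀ E : Set ℂ, IsCompact E → E ⊆ sphere (0:ℂ) 1 → ∀ ζ ∈ sphere (0:ℂ) 1, ζ ∉ E →
  Tendsto (fun r : ℝ => hh E (r * ζ)) (𝓝[<] (1:ℝ)) (𝓝 0)

/-- row 18 (iii) -/
def P18 : Prop := ∀ E : Set ℂ, IsCompact E → E ⊆ sphere (0:ℂ) 1 →
  0 < Real.circleAverage (ind E) 0 1 → ∃ z ∈ ball (0:ℂ) 1, 1 - 1 / 16 < hh E z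

/-- row 19 (v): harmonic polynomial majorant -/
def P19 : Prop := ∀ (r : ℝ), 0 < r → ∀ S : ℂ → ℝ, ContinuousOn S (sphere (0:ℂ) r) → ∀ ε > 0,
  ∃ P : Polynomial ℂ, ∀ z ∈ sphere (0:ℂ) r, S z ≤ (P.eval z).re ∧ (P.eval z).re ≤ S z + ε

/-- row 20 (vii): Harnack -/
def P20 : Prop := ∀ (r : ℝ), 0 < r → ∀ P : Polynomial ℂ,
  (∀ z ∈ sphere (0:ℂ) r, 0 ≤ (P.eval z).re) → ∀ z ∈ ball (0:ℂ) r,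
    0 ≤ (P.eval z).re ∧
    (P.eval z).re ≤ (r + ‖z‖) / (r - ‖z‖) * Real.circleAverage (fun y => (P.eval y).re) 0 r

/-- row 21 (iv): dominated convergence on circles -/
def P21 : Prop := ∀ (S : ℂ → ℝ) (C : ℝ), ContinuousOn S (ball (0:ℂ) 1) →
  (∀ z ∈ ball (0:ℂ) 1, |S z| ≤ C) →
  (∀ ζ ∈ sphere (0:ℂ) 1, Tendsto (fun r : ℝ => S (r * ζ)) (𝓝[<] (1:ℝ)) (𝓝 0)) →
  Tendsto (fun r : ℝ => Real.circleAverage S 0 r) (𝓝[<] (1:ℝ)) (𝓝 0)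

/-- row 22 (vi)+(vii): the maximum principle with a continuous majorant -/
def P22 : Prop := ∀ (K : ℂ → ℂ) (S : ℂ → ℝ) (V : Set ℂ), DifferentiableOn ℂ K (ball (0:ℂ) 1) →
  ContinuousOn S (ball (0:ℂ) 1) → (∀ z ∈ ball (0:ℂ) 1, 0 ≤ S z) → IsOpen V → V ⊆ ball (0:ℂ) 1 →
  (∀ z ∈ closure V ∩ ball (0:ℂ) 1, ‖K z‖ ≤ Real.exp (S z)) →
  (∀ z ∈ frontier V ∩ ball (0:ℂ) 1, ‖K z‖ ≤ 1) →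
  Tendsto (fun r : ℝ => Real.circleAverage S 0 r) (𝓝[<] (1:ℝ)) (𝓝 0) →
  ∀ z ∈ V, ‖K z‖ ≤ 1

/-- row 23 (5c): local uniqueness -/
def P23 : Prop := ∀ (F : ℂ → ℂ) (E : Set ℂ) (M : ℝ), DifferentiableOn ℂ F (ball (0:ℂ) 1) →
  IsCompact E → E ⊆ sphere (0:ℂ) 1 → 0 < Real.circleAverage (ind E) 0 1 →
  (∀ ζ ∈ E, Tendsto (fun r : ℝ => F (r * ζ)) (𝓝[<] (1:ℝ)) (𝓝 0)) →
  (∀ z ∈ ball (0:ℂ) 1, ∀ ζ ∈ E, ‖z - ‖z‖ * ζ‖ ≤ 1 - ‖z‖ → ‖F z‖ ≤ M) →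
  ∀ z ∈ ball (0:ℂ) 1, F z = 0

/-- row 24: m{x=1}=0 -/
def P24 : Prop := ∀ φ : ℂ → ℂ, SelfMap φ →
  (¬ ∃ c : ℂ, ‖c‖ = 1 ∧ ∀ z ∈ ball (0:ℂ) 1, φ z = c * z) →
  ∀ x : ℝ → ℝ, Measurable x →
  (∀ θ : ℝ, x θ = 1 → Tendsto (Q φ (ee θ)) (𝓝[<] (1:ℝ)) (𝓝 1) ∧
    ∀ r ∈ Ico (0:ℝ) 1, Q φ (ee θ) r ≤ 1) →
  volume (Ioc (0:ℝ) (2 * Real.pi) ∩ {θ | x θ = 1}) = 0

/-- row 25: the frozen statement -/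
def P25 : Prop := ∀ φ : ℂ → ℂ,
      DifferentiableOn ℂ φ (Metric.ball (0 : ℂ) 1) →
      Set.MapsTo φ (Metric.ball (0 : ℂ) 1) (Metric.ball (0 : ℂ) 1) →
      (¬ ∃ c : ℂ, ‖c‖ = 1 ∧ ∀ z ∈ Metric.ball (0 : ℂ) 1, φ z = c * z) →
      ∀ j k : ℕ,
        Filter.Tendsto
          (fun n : ℕ =>
            iteratedDeriv (n + k) (fun z => φ z ^ (n + j)) 0 / ((n + k).factorial : ℂ))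
          Filter.atTop (nhds 0)

end Pool.Agent.NSH
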