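import Pool.Agent.Lib.NSH.Props

/-! Project NSH, row 10 (helper16): Step 3, the case of finite `d`. -/

set_option autoImplicit false
set_option linter.unusedVariables false

open Complex Metric Set Filter Topology MeasureTheory
open scoped ComplexConjugate

namespace Pool.Agent.NSH

theorem nsh10_pow {g : ℕ → ℂ} {t : ℂ} (hg : Tendsto (fun n : ℕ => (n : ℂ) * g n) atTop (𝓝 t))
    (j : ℕ) : Tendsto (fun n => (1 + g n) ^ (n + j)) atTop (𝓝 (Complex.exp t)) := by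
  have h0 : Tendsto g atTop (𝓝 0) := by
    have h1 : Tendsto (fun n : ℕ => ((n : ℂ))⁻¹) atTop (𝓝 0) := tendsto_inv_atTop_nhds_zero_nat
    have h2 := h1.mul hg
    rw [zero_mul] at h2
    refine h2.congr' ?_
    filter_upwards [eventually_gt_atTop 0] with n hn
    have : (n : ℂ) ≠ 0 := by exact_mod_cast hn.ne'
    field_simp
  have h1 := Complex.tendsto_one_add_pow_exp_of_tendsto hg
  have h2 : Tendsto (fun n => (1 + g n) ^ j) atTop (𝓝 1) := by
    simpa using (h0.const_add 1).pow j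
  simpa [pow_add] using h1.mul h2

theorem nsh10_rr (s : ℕ) (hs : 1 ≤ s) : Tendsto (rr s) atTop (𝓝[<] (1:ℝ)) := by
  rw [tendsto_nhdsWithin_iff]
  constructor
  · have h1 : Tendsto (fun n : ℕ => (s : ℝ) / n) atTop (𝓝 0) := tendsto_const_div_atTop_nhds_zero_nat _
    have h2 : rr s = fun n : ℕ => 1 - (s : ℝ) / n := rfl
    rw [h2]
    simpa using h1.const_sub 1
  · filter_upwards [eventually_gt_atTop 0] with n hn
    have h1 : (0 : ℝ) < n := by exact_mod_cast hn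
    have h2 : (0 : ℝ) < s := by exact_mod_cast hs
    have h3 : 0 < (s : ℝ) / n := div_pos h2 h1
    simp only [rr, mem_Iio]
    linarith

/-- the quotient of the values -/
theorem nsh10_w (h7 : P07) {φ : ℂ → ℂ} (hφ : SelfMap φ) {ζ : ℂ} (hζ : ‖ζ‖ = 1) {d : ℝ}
    (hQ : Tendsto (Q φ ζ) (𝓝[<] (1:ℝ)) (𝓝 d)) (i : ℕ) :
    (∀ᶠ n in atTop, φ ((rr 1 n : ℝ) * ζ) ≠ 0) ∧
    Tendsto (fun n : ℕ => (n : ℂ) *
      (φ ((rr (1 + i) n : ℝ) * ζ) / φ ((rr 1 n : ℝ) * ζ) - 1)) atTop (𝓝 (-(i * d) : ℂ)) := by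
  obtain ⟨h1, h2, h3⟩ := h7 φ hφ ζ hζ d hQ ℕ atTop (rr 1) (rr (1 + i)) (nsh10_rr 1 le_rfl)
    (nsh10_rr (1 + i) (by omega))
  have hne : ∀ᶠ n in atTop, φ ((rr 1 n : ℝ) * ζ) ≠ 0 := by
    filter_upwards [h1.eventually (lt_mem_nhds (show (0:ℝ) < 1 by norm_num))] with n hn
    exact norm_pos_iff.1 hn
  refine ⟨hne, ?_⟩
  -- `n (1 - |w| ^ 2) → 2 d`
  have e1 : Tendsto (fun n : ℕ => (n : ℝ) * (1 - ‖φ ((rr 1 n : ℝ) * ζ)‖ ^ 2)) atTop (𝓝 (2 * d)) := by
    have e := h2.mul (h1.const_add 1)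
    rw [show d * (1 + 1) = 2 * d by ring] at e
    refine e.congr' ?_
    filter_upwards [eventually_gt_atTop 0] with n hn
    have hn0 : (n : ℝ) ≠ 0 := by exact_mod_cast hn.ne'
    have : 1 - rr 1 n = 1 / (n : ℝ) := by simp [rr]
    rw [this]
    field_simp
    ring
  have e1' : Tendsto (fun n : ℕ => (((n : ℝ) * (1 - ‖φ ((rr 1 n : ℝ) * ζ)‖ ^ 2) : ℝ) : ℂ))
      atTop (𝓝 ((2 * d : ℝ) : ℂ)) := (Complex.continuous_ofReal.tendsto _).comp e1
  have e2 : Tendsto (fun n : ℕ => (n : ℂ) *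
      (1 - conj (φ ((rr 1 n : ℝ) * ζ)) * φ ((rr (1 + i) n : ℝ) * ζ))) atTop
      (𝓝 (((2 + i : ℝ) : ℂ) * d)) := by
    have e := h3.const_mul ((2 + i : ℝ) : ℂ)
    refine e.congr' ?_
    filter_upwards [eventually_gt_atTop 0] with n hn
    have hn0 : (n : ℂ) ≠ 0 := by exact_mod_cast hn.ne'
    have hn1 : (n : ℝ) ≠ 0 := by exact_mod_cast hn.ne'
    have hi : ((2 + i : ℝ) : ℂ) ≠ 0 := by
      have : (0 : ℝ) < 2 + i := by positivity
      exact_mod_cast this.ne'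
    have : ((1 - rr 1 n) + (1 - rr (1 + i) n) : ℝ) = (2 + i : ℝ) / n := by
      simp only [rr]
      push_cast
      field_simp
      ring
    rw [this, Complex.ofReal_div, Complex.ofReal_natCast]
    field_simp
  have e3 : Tendsto (fun n : ℕ => ((‖φ ((rr 1 n : ℝ) * ζ)‖ ^ 2 : ℝ) : ℂ)) atTop (𝓝 1) := by
    have e := h1.pow 2
    rw [one_pow] at e
    have := (Complex.continuous_ofReal.tendsto _).comp e
    simpa [Function.comp_def] using this
  have e4 := (e1'.sub e2).div e3 one_ne_zero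
  have hlim : ((2 * d : ℝ) - ((2 + i : ℝ) : ℂ) * d) / 1 = (-(i * d) : ℂ) := by
    push_cast
    ring
  rw [hlim] at e4
  refine e4.congr' ?_
  filter_upwards [hne] with n hn
  have hw : ((‖φ ((rr 1 n : ℝ) * ζ)‖ ^ 2 : ℝ) : ℂ) =
      conj (φ ((rr 1 n : ℝ) * ζ)) * φ ((rr 1 n : ℝ) * ζ) := by
    rw [Complex.conj_mul']
    push_cast
    rfl
  have hc : conj (φ ((rr 1 n : ℝ) * ζ)) ≠ 0 := by
    rwa [Ne, map_eq_zero]
  simp only [Pi.div_apply]
  rw [Complex.ofReal_mul, Complex.ofReal_sub, hw, Complex.ofReal_one, Complex.ofReal_natCast]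
  field_simp
  ring

/-- the quotient of the radii -/
theorem nsh10_r (i : ℕ) : Tendsto (fun n : ℕ => (n : ℂ) *
    (((rr 1 n : ℝ) : ℂ) / ((rr (1 + i) n : ℝ) : ℂ) - 1)) atTop (𝓝 (i : ℂ)) := by
  have h1 : Tendsto (rr (1 + i)) atTop (𝓝 1) :=
    (nsh10_rr (1 + i) (by omega)).mono_right nhdsWithin_le_nhds
  have h2 : Tendsto (fun n => ((rr (1 + i) n : ℝ) : ℂ)) atTop (𝓝 1) := by
    have := (Complex.continuous_ofReal.tendsto _).comp h1
    simpa [Function.comp_def] using this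
  have h3 := (tendsto_const_nhds (x := (i : ℂ)) (f := (atTop : Filter ℕ))).div h2 one_ne_zero
  rw [div_one] at h3
  refine h3.congr' ?_
  filter_upwards [h1.eventually (lt_mem_nhds (show (0:ℝ) < 1 by norm_num)),
    eventually_gt_atTop 0] with n hn hn1
  have e1 : ((rr (1 + i) n : ℝ) : ℂ) ≠ 0 := by exact_mod_cast hn.ne'
  have hn0 : (n : ℂ) ≠ 0 := by exact_mod_cast hn1.ne'
  simp only [Pi.div_apply]
  rw [div_sub_one e1, mul_div_assoc']
  congr 1
  simp only [rr]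
  push_cast
  field_simp
  ring

/-- row 10 -/
theorem nsh10 (h7 : P07) (h8 : P08) : P10 := by
  intro φ hφ ζ hζ d hQ j k i
  obtain ⟨hne, hw⟩ := nsh10_w h7 hφ hζ hQ i
  have hr := nsh10_r i
  have l1 := nsh10_pow hw j
  have l2 := nsh10_pow hr k
  have l3 := l1.mul l2
  rw [← Complex.exp_add] at l3
  have hexp : Complex.exp (-(i * d : ℂ) + i) = ((Real.exp (1 - d) ^ i : ℝ) : ℂ) := by
    rw [← Real.exp_nat_mul, Complex.ofReal_exp]
    congr 1
    push_cast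
    ring
  rw [hexp] at l3
  have l4 := l3.sub_const ((Real.exp (1 - d) ^ i : ℝ) : ℂ)
  rw [sub_self] at l4
  -- multiply by the bounded integrand
  have hb : ∀ᶠ n : ℕ in atTop, ‖G φ j k 1 n ζ‖ ≤ Real.exp (2 * (1 : ℕ) * (1 + k)) := by
    filter_upwards [eventually_ge_atTop 2] with n hn
    exact h8 φ hφ ζ hζ j k 1 n le_rfl (by omega)
  have l5 := l4.zero_mul_isBoundedUnder_le (isBoundedUnder_of_eventually_le hb)
  refine l5.congr' ?_
  have hζ0 : ζ ≠ 0 := by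
    intro h
    rw [h, norm_zero] at hζ
    exact zero_ne_one hζ
  have hr1 : ∀ s : ℕ, 1 ≤ s → ∀ᶠ n in atTop, ((rr s n : ℝ) : ℂ) ≠ 0 := by
    intro s hs
    have h1 : Tendsto (rr s) atTop (𝓝 1) := (nsh10_rr s hs).mono_right nhdsWithin_le_nhds
    filter_upwards [h1.eventually (lt_mem_nhds (show (0:ℝ) < 1 by norm_num))] with n hn
    exact_mod_cast hn.ne'
  filter_upwards [hne, hr1 1 le_rfl, hr1 (1 + i) (by omega)] with n hn h1 h2
  simp only [G]
  rw [add_sub_cancel, add_sub_cancel, sub_mul]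
  congr 1
  rw [div_pow, div_pow, mul_pow, mul_pow]
  generalize φ (((rr 1 n : ℝ) : ℂ) * ζ) = w at hn
  generalize φ (((rr (1 + i) n : ℝ) : ℂ) * ζ) = w'
  field_simp

end Pool.Agent.NSH
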