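import Pool.Agent.Lib.NSH.Props

set_option autoImplicit false

/-! Project NSH, row 12 (Step 5a): the radial limit of `z φ'(z) - φ(z)` where the angular derivative is one. -/

open Complex Metric Set Filter Topology MeasureTheory
open scoped ComplexConjugate

namespace Pool.Agent.NSH

/-- the limit computation of step 5a, for abstract functions -/
theorem step5a (l : Filter ℝ) (hid : Tendsto (fun r : ℝ => r) l (𝓝 1))
    (hev : ∀ᶠ r in l, 0 < r ∧ r < 1) (ζ : ℂ) (hζ : ‖ζ‖ = 1) (w v p γ D : ℝ → ℂ)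
    (hw : Tendsto (fun r => ‖w r‖) l (𝓝 1))
    (hq : Tendsto (fun r => (1 - ‖w r‖) / (1 - r)) l (𝓝 1))
    (hU : Tendsto (fun r => (1 - conj (w r) * v r) /
      (((1 - r) + (1 - (1 + 2 * r) / (2 + r)) : ℝ) : ℂ)) l (𝓝 1))
    (hwl : ∀ᶠ r in l, ‖w r‖ < 1 ∧ ‖v r‖ < 1)
    (hγ : ∀ᶠ r in l, γ r = (v r - w r) / (1 - conj (w r) * v r) / (ζ / 2))
    (hD : ∀ᶠ r in l, D r = p r * ((1 - r ^ 2 : ℝ) : ℂ) / ((1 - ‖w r‖ ^ 2 : ℝ) : ℂ))
    (hDγ : ∀ᶠ r in l, ‖D r - γ r‖ ≤ 1 - ‖γ r‖ ^ 2) :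
    Tendsto (fun r : ℝ => (r : ℂ) * ζ * p r - w r) l (𝓝 0) := by
  have hζζ : ζ * conj ζ = 1 := by
    rw [Complex.mul_conj, Complex.normSq_eq_norm_sq, hζ]; norm_num
  have hζ0 : ζ ≠ 0 := by
    rintro rfl
    simp at hζ
  -- the real quotient
  have hA : Tendsto (fun r => (1 - ‖w r‖ ^ 2) / ((1 - r) + (1 - (1 + 2 * r) / (2 + r)))) l
      (𝓝 (3 / 2)) := by
    have h1 : Tendsto (fun r => (1 + ‖w r‖) * ((1 - ‖w r‖) / (1 - r)) * ((2 + r) / (3 + r))) l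
        (𝓝 ((1 + 1) * 1 * ((2 + 1) / (3 + 1)))) :=
      ((hw.const_add 1).mul hq).mul ((hid.const_add 2).div (hid.const_add 3) (by norm_num))
    have h2 : ((1 + 1) * 1 * ((2 + 1) / (3 + 1)) : ℝ) = 3 / 2 := by norm_num
    rw [h2] at h1
    refine h1.congr' ?_
    filter_upwards [hev] with r hr
    have h3 : 1 - r ≠ 0 := by linarith [hr.2]
    have h4 : 2 + r ≠ 0 := by linarith [hr.1]
    have h5 : 3 + r ≠ 0 := by linarith [hr.1]
    have h6 : (1 - r) + (1 - (1 + 2 * r) / (2 + r)) = (1 - r) * (3 + r) / (2 + r) := by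
      field_simp
      ring
    rw [h6]
    field_simp
    ring
  -- conj w * T
  have hcT : Tendsto (fun r => conj (w r) * ((v r - w r) / (1 - conj (w r) * v r))) l
      (𝓝 (1 / 2)) := by
    have h1 : Tendsto (fun r => (((1 - ‖w r‖ ^ 2) /
        ((1 - r) + (1 - (1 + 2 * r) / (2 + r))) : ℝ) : ℂ) /
        ((1 - conj (w r) * v r) / (((1 - r) + (1 - (1 + 2 * r) / (2 + r)) : ℝ) : ℂ)) - 1) l
        (𝓝 (((3 / 2 : ℝ) : ℂ) / 1 - 1)) :=
      (((Complex.continuous_ofReal.tendsto _).comp hA).div hU one_ne_zero).sub_const 1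
    have h2 : (((3 / 2 : ℝ) : ℂ) / 1 - 1) = 1 / 2 := by push_cast; norm_num
    rw [h2] at h1
    refine h1.congr' ?_
    filter_upwards [hev, hwl] with r hr hwr
    have h3 : 1 - r ≠ 0 := by linarith [hr.2]
    have h4 : 2 + r ≠ 0 := by linarith [hr.1]
    have h6 : (1 - r) + (1 - (1 + 2 * r) / (2 + r)) = (1 - r) * (3 + r) / (2 + r) := by
      field_simp
      ring
    have h7 : (((1 - r) + (1 - (1 + 2 * r) / (2 + r)) : ℝ) : ℂ) ≠ 0 := by
      rw [h6]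
      have : 0 < (1 - r) * (3 + r) / (2 + r) := by
        have h8 := hr.1
        have h9 : 0 < 1 - r := by linarith [hr.2]
        positivity
      exact_mod_cast this.ne'
    have h8 : 1 - conj (w r) * v r ≠ 0 := by
      intro h
      have h9 : conj (w r) * v r = 1 := by linear_combination -h
      have h10 : ‖conj (w r) * v r‖ < 1 := by
        rw [norm_mul, RCLike.norm_conj]
        have := mul_lt_one_of_nonneg_of_lt_one_left (norm_nonneg (w r)) hwr.1 hwr.2.le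
        exact this
      rw [h9] at h10
      simp at h10
    have h9 : conj (w r) * w r = ((‖w r‖ ^ 2 : ℝ) : ℂ) := by
      rw [mul_comm, Complex.mul_conj, Complex.normSq_eq_norm_sq]
    have h10 : (((1 - ‖w r‖ ^ 2) / ((1 - r) + (1 - (1 + 2 * r) / (2 + r))) : ℝ) : ℂ) =
        (1 - conj (w r) * w r) / (((1 - r) + (1 - (1 + 2 * r) / (2 + r)) : ℝ) : ℂ) := by
      rw [h9]
      push_cast
      rfl
    rw [h10, div_div_div_cancel_right₀ h7]
    field_simp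
    ring
  -- T - w / 2
  have hwb : ∀ᶠ r in l, 1 / 2 < ‖w r‖ := hw.eventually_const_lt (by norm_num)
  have hT : Tendsto (fun r => (v r - w r) / (1 - conj (w r) * v r) - w r / 2) l (𝓝 0) := by
    have h1 : Tendsto (fun r => (conj (w r) * ((v r - w r) / (1 - conj (w r) * v r))) /
        ((‖w r‖ ^ 2 : ℝ) : ℂ) - 1 / 2) l (𝓝 ((1 / 2) / ((1 ^ 2 : ℝ) : ℂ) - 1 / 2)) := by
      refine (hcT.div ((Complex.continuous_ofReal.tendsto _).comp (hw.pow 2)) ?_).sub_const _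
      norm_num
    have h2 : ((1 / 2) / ((1 ^ 2 : ℝ) : ℂ) - 1 / 2) = 0 := by norm_num
    rw [h2] at h1
    have h3 := (isBoundedUnder_of_eventually_le (f := l) (u := fun r => ‖w r‖) (a := 1)
      (hwl.mono fun r hr => hr.1.le))
    have h4 : Tendsto (fun r => w r * ((conj (w r) * ((v r - w r) / (1 - conj (w r) * v r))) /
        ((‖w r‖ ^ 2 : ℝ) : ℂ) - 1 / 2)) l (𝓝 0) :=
      isBoundedUnder_le_mul_tendsto_zero h3 h1
    refine h4.congr' ?_
    filter_upwards [hwb] with r hr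
    have h5 : w r ≠ 0 := by
      intro h
      rw [h] at hr
      simp at hr
      linarith
    have h6 : ((‖w r‖ ^ 2 : ℝ) : ℂ) = w r * conj (w r) := by
      rw [Complex.mul_conj, Complex.normSq_eq_norm_sq]
    have h7 : conj (w r) ≠ 0 := by
      rwa [Ne, map_eq_zero]
    rw [h6]
    field_simp
  -- γ
  have hζγ : Tendsto (fun r => ζ * γ r - w r) l (𝓝 0) := by
    have h1 := hT.const_mul 2
    rw [mul_zero] at h1
    refine h1.congr' ?_
    filter_upwards [hγ] with r hr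
    rw [hr]
    field_simp
  have hγn : Tendsto (fun r => ‖γ r‖) l (𝓝 1) := by
    have h1 : Tendsto (fun r => ‖ζ * γ r‖ - ‖w r‖) l (𝓝 0) := by
      refine squeeze_zero_norm (fun r => ?_) (tendsto_zero_iff_norm_tendsto_zero.1 hζγ)
      exact abs_norm_sub_norm_le _ _
    have h2 := h1.add hw
    simp only [sub_add_cancel, zero_add, norm_mul, hζ, one_mul] at h2
    exact h2
  have hDγ0 : Tendsto (fun r => D r - γ r) l (𝓝 0) := by
    have h1 : Tendsto (fun r => 1 - ‖γ r‖ ^ 2) l (𝓝 (1 - 1 ^ 2)) := (hγn.pow 2).const_sub 1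
    norm_num at h1
    exact squeeze_zero_norm' hDγ h1
  -- the ratio
  have hρ : Tendsto (fun r => (((1 - ‖w r‖ ^ 2) / (1 - r ^ 2) : ℝ) : ℂ)) l (𝓝 1) := by
    have h1 : Tendsto (fun r => (1 + ‖w r‖) * ((1 - ‖w r‖) / (1 - r)) / (1 + r)) l
        (𝓝 ((1 + 1) * 1 / (1 + 1))) :=
      ((hw.const_add 1).mul hq).div (hid.const_add 1) (by norm_num)
    have h2 : ((1 + 1) * 1 / (1 + 1) : ℝ) = 1 := by norm_num
    rw [h2] at h1
    have h3 := (Complex.continuous_ofReal.tendsto _).comp h1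
    rw [Complex.ofReal_one] at h3
    refine h3.congr' ?_
    filter_upwards [hev] with r hr
    simp only [Function.comp]
    congr 1
    have h3 : 1 - r ≠ 0 := by linarith [hr.2]
    have h4 : 1 + r ≠ 0 := by linarith [hr.1]
    have h5 : 1 - r ^ 2 = (1 - r) * (1 + r) := by ring
    rw [h5]
    field_simp
    ring
  have hγb : IsBoundedUnder (· ≤ ·) l (fun r => ‖γ r‖) := hγn.isBoundedUnder_le
  have hp : Tendsto (fun r => p r - γ r) l (𝓝 0) := by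
    have h1 : Tendsto (fun r => (D r - γ r) * (((1 - ‖w r‖ ^ 2) / (1 - r ^ 2) : ℝ) : ℂ) +
        γ r * ((((1 - ‖w r‖ ^ 2) / (1 - r ^ 2) : ℝ) : ℂ) - 1)) l (𝓝 (0 * 1 + 0)) := by
      refine (hDγ0.mul hρ).add ?_
      have h2 := hρ.sub_const 1
      rw [sub_self] at h2
      exact isBoundedUnder_le_mul_tendsto_zero hγb h2
    rw [zero_mul, zero_add] at h1
    refine h1.congr' ?_
    filter_upwards [hev, hD, hwl] with r hr hDr hwr
    rw [hDr]
    have h3 : ((1 - r ^ 2 : ℝ) : ℂ) ≠ 0 := by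
      have : 1 - r ^ 2 ≠ 0 := by nlinarith [hr.1, hr.2]
      exact_mod_cast this
    have h4 : ((1 - ‖w r‖ ^ 2 : ℝ) : ℂ) ≠ 0 := by
      have : 1 - ‖w r‖ ^ 2 ≠ 0 := by nlinarith [hwr.1, norm_nonneg (w r)]
      exact_mod_cast this
    rw [Complex.ofReal_div]
    field_simp
    ring
  -- assembly
  have hrb : Tendsto (fun r : ℝ => (r : ℂ)) l (𝓝 1) := by
    have := (Complex.continuous_ofReal.tendsto _).comp hid
    rwa [Complex.ofReal_one] at this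
  have hwbd : IsBoundedUnder (· ≤ ·) l (fun r => ‖w r‖) := hw.isBoundedUnder_le
  have h1 : Tendsto (fun r : ℝ => (r : ℂ) * ζ * (p r - γ r) + (r : ℂ) * (ζ * γ r - w r) +
      w r * ((r : ℂ) - 1)) l (𝓝 (1 * ζ * 0 + 1 * 0 + 0)) := by
    refine (((hrb.mul_const ζ).mul hp).add (hrb.mul hζγ)).add ?_
    have h2 := hrb.sub_const 1
    rw [sub_self] at h2
    exact isBoundedUnder_le_mul_tendsto_zero hwbd h2
  have h2 : (1 * ζ * 0 + 1 * 0 + 0 : ℂ) = 0 := by ring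
  rw [h2] at h1
  refine h1.congr fun r => ?_
  ring

theorem nsh12 (h3 : P03) (h7 : P07) : P12 := by
  intro φ hφ ζ hζ hQ
  have hev : ∀ᶠ r in 𝓝[<] (1:ℝ), 0 < r ∧ r < 1 := by
    have h2 : ∀ᶠ r in 𝓝[<] (1:ℝ), (0:ℝ) < r :=
      (eventually_gt_nhds (by norm_num)).filter_mono nhdsWithin_le_nhds
    exact h2.and self_mem_nhdsWithin
  have hid : Tendsto (fun r : ℝ => r) (𝓝[<] (1:ℝ)) (𝓝[<] (1:ℝ)) := tendsto_id
  have hid' : Tendsto (fun r : ℝ => r) (𝓝[<] (1:ℝ)) (𝓝 (1:ℝ)) := hid.mono_right nhdsWithin_le_nhds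
  have hs : Tendsto (fun r : ℝ => (1 + 2 * r) / (2 + r)) (𝓝[<] (1:ℝ)) (𝓝[<] (1:ℝ)) := by
    refine tendsto_nhdsWithin_iff.2 ⟨?_, ?_⟩
    · have h1 : Tendsto (fun r : ℝ => (1 + 2 * r) / (2 + r)) (𝓝[<] (1:ℝ))
          (𝓝 ((1 + 2 * 1) / (2 + 1))) :=
        ((hid'.const_mul 2).const_add 1).div (hid'.const_add 2) (by norm_num)
      have h2 : ((1 + 2 * 1) / (2 + 1) : ℝ) = 1 := by norm_num
      rwa [h2] at h1
    · filter_upwards [hev] with r hr
      rw [mem_Iio, div_lt_one (by linarith [hr.1])]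
      linarith [hr.2]
  obtain ⟨k1, k2, k3⟩ := h7 φ hφ ζ hζ 1 hQ ℝ (𝓝[<] (1:ℝ)) (fun r => r)
    (fun r => (1 + 2 * r) / (2 + r)) hid hs
  have hball : ∀ r : ℝ, 0 < r → r < 1 → (r : ℂ) * ζ ∈ ball (0:ℂ) 1 := by
    intro r h0 h1
    rw [mem_ball_zero_iff, norm_mul, hζ, mul_one, Complex.norm_real, Real.norm_of_nonneg h0.le]
    exact h1
  have hs1 : ∀ r : ℝ, 0 < r → r < 1 → 0 < (1 + 2 * r) / (2 + r) ∧ (1 + 2 * r) / (2 + r) < 1 := by
    intro r h0 h1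
    refine ⟨by positivity, ?_⟩
    rw [div_lt_one (by linarith)]
    linarith
  have hζζ : conj ζ * ζ = 1 := by
    rw [mul_comm, Complex.mul_conj, Complex.normSq_eq_norm_sq, hζ]; norm_num
  have hζ0 : ζ ≠ 0 := by
    rintro rfl
    simp at hζ
  have key : ∀ r : ℝ, 0 < r → r < 1 →
      ‖deriv φ (r * ζ) * ((1 - r ^ 2 : ℝ) : ℂ) / ((1 - ‖φ (r * ζ)‖ ^ 2 : ℝ) : ℂ) -
        (φ (((1 + 2 * r) / (2 + r) : ℝ) * ζ) - φ (r * ζ)) /
          (1 - conj (φ (r * ζ)) * φ (((1 + 2 * r) / (2 + r) : ℝ) * ζ)) / (ζ / 2)‖ ≤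
      1 - ‖(φ (((1 + 2 * r) / (2 + r) : ℝ) * ζ) - φ (r * ζ)) /
          (1 - conj (φ (r * ζ)) * φ (((1 + 2 * r) / (2 + r) : ℝ) * ζ)) / (ζ / 2)‖ ^ 2 := by
    intro r h0 h1
    obtain ⟨h4, h5⟩ := hs1 r h0 h1
    have hz := hball r h0 h1
    have hy := hball _ h4 h5
    have h2r : (2 + r) ≠ 0 := by linarith
    have hne : (((1 + 2 * r) / (2 + r) : ℝ) : ℂ) * ζ ≠ (r : ℂ) * ζ := by
      intro h
      have h6 := mul_right_cancel₀ hζ0 h
      have h7 : (1 + 2 * r) / (2 + r) = r := by exact_mod_cast h6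
      rw [div_eq_iff h2r] at h7
      nlinarith
    have hu : ζ / 2 = ((((1 + 2 * r) / (2 + r) : ℝ) : ℂ) * ζ - (r : ℂ) * ζ) /
        (1 - conj ((r : ℂ) * ζ) * ((((1 + 2 * r) / (2 + r) : ℝ) : ℂ) * ζ)) := by
      have h6 : conj ((r : ℂ) * ζ) * ((((1 + 2 * r) / (2 + r) : ℝ) : ℂ) * ζ) =
          ((r * ((1 + 2 * r) / (2 + r)) : ℝ) : ℂ) := by
        rw [map_mul, Complex.conj_ofReal, Complex.ofReal_mul]
        linear_combination (r : ℂ) * (((1 + 2 * r) / (2 + r) : ℝ) : ℂ) * hζζ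
      have h7 : (((1 + 2 * r) / (2 + r) : ℝ) : ℂ) * ζ - (r : ℂ) * ζ =
          (((1 + 2 * r) / (2 + r) - r : ℝ) : ℂ) * ζ := by
        push_cast; ring
      have h8 : (1 + 2 * r) / (2 + r) - r = (1 - r * ((1 + 2 * r) / (2 + r))) / 2 := by
        field_simp
        ring
      have h9 : 1 - r * ((1 + 2 * r) / (2 + r)) ≠ 0 := by
        have : r * ((1 + 2 * r) / (2 + r)) < 1 := by nlinarith
        linarith
      have h10 : (1 : ℂ) - ((r * ((1 + 2 * r) / (2 + r)) : ℝ) : ℂ) ≠ 0 := by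
        exact_mod_cast h9
      rw [h6, h7, h8, eq_div_iff h10]
      push_cast
      ring
    have h11 := h3 φ hφ _ hz _ hy hne (ζ / 2) _ _ hu rfl rfl
    have h12 : ‖ζ / 2‖ = 1 / 2 := by rw [norm_div, hζ]; norm_num
    have h13 : ‖(r : ℂ) * ζ‖ = r := by
      rw [norm_mul, hζ, mul_one, Complex.norm_real, Real.norm_of_nonneg h0.le]
    rw [h12, h13] at h11
    linarith
  refine step5a (𝓝[<] (1:ℝ)) hid' hev ζ hζ (fun r => φ (r * ζ))
    (fun r => φ (((1 + 2 * r) / (2 + r) : ℝ) * ζ)) (fun r => deriv φ (r * ζ))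
    (fun r => (φ (((1 + 2 * r) / (2 + r) : ℝ) * ζ) - φ (r * ζ)) /
          (1 - conj (φ (r * ζ)) * φ (((1 + 2 * r) / (2 + r) : ℝ) * ζ)) / (ζ / 2))
    (fun r => deriv φ (r * ζ) * ((1 - r ^ 2 : ℝ) : ℂ) / ((1 - ‖φ (r * ζ)‖ ^ 2 : ℝ) : ℂ))
    k1 k2 (by simpa using k3) ?_ (Eventually.of_forall fun r => rfl)
    (Eventually.of_forall fun r => rfl) ?_
  · filter_upwards [hev] with r hr
    obtain ⟨h4, h5⟩ := hs1 r hr.1 hr.2
    exact ⟨mem_ball_zero_iff.1 (hφ.2 (hball r hr.1 hr.2)),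
      mem_ball_zero_iff.1 (hφ.2 (hball _ h4 h5))⟩
  · filter_upwards [hev] with r hr
    exact key r hr.1 hr.2

end Pool.Agent.NSH
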