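import Pool.Agent.Lib.NSH.Props

/-! Project NSH, row 22 (helper16): the maximum principle with a continuous majorant. -/

set_option autoImplicit false
set_option linter.unusedVariables false

open Complex Metric Set Filter Topology MeasureTheory
open scoped ComplexConjugate

namespace Pool.Agent.NSH

/-- for one radius `r` and one `ε` -/
theorem nsh22_aux (h19 : P19) (h20 : P20) {K : ℂ → ℂ} {S : ℂ → ℝ} {V : Set ℂ}
    (hK : DifferentiableOn ℂ K (ball (0:ℂ) 1)) (hS : ContinuousOn S (ball (0:ℂ) 1))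
    (hS0 : ∀ z ∈ ball (0:ℂ) 1, 0 ≤ S z) (hV : IsOpen V) (hV1 : V ⊆ ball (0:ℂ) 1)
    (hcl : ∀ z ∈ closure V ∩ ball (0:ℂ) 1, ‖K z‖ ≤ Real.exp (S z))
    (hfr : ∀ z ∈ frontier V ∩ ball (0:ℂ) 1, ‖K z‖ ≤ 1) {z : ℂ} (hz : z ∈ V) {r : ℝ}
    (hzr : ‖z‖ < r) (hr : r < 1) {ε : ℝ} (hε : 0 < ε) :
    ‖K z‖ ≤ Real.exp ((r + ‖z‖) / (r - ‖z‖) * (Real.circleAverage S 0 r + ε)) := by
  have hr0 : 0 < r := lt_of_le_of_lt (norm_nonneg z) hzr
  have hsub : closedBall (0:ℂ) r ⊆ ball (0:ℂ) 1 := closedBall_subset_ball hr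
  have hsp : sphere (0:ℂ) r ⊆ ball (0:ℂ) 1 := sphere_subset_closedBall.trans hsub
  have hSr : ContinuousOn S (sphere (0:ℂ) r) := hS.mono hsp
  obtain ⟨P, hP⟩ := h19 r hr0 S hSr ε hε
  have hP0 : ∀ y ∈ sphere (0:ℂ) r, 0 ≤ (P.eval y).re := fun y hy =>
    (hS0 y (hsp hy)).trans (hP y hy).1
  have hPc : Continuous fun y : ℂ => (P.eval y).re := Complex.continuous_re.comp P.continuous
  have hav : Real.circleAverage (fun y => (P.eval y).re) 0 r ≤ Real.circleAverage S 0 r + ε := by
    have hSi : CircleIntegrable S 0 r := hSr.circleIntegrable hr0.le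
    have h1 : Real.circleAverage (fun y => S y + ε) 0 r = Real.circleAverage S 0 r + ε := by
      rw [Real.circleAverage_fun_add hSi (circleIntegrable_const ε 0 r),
        Real.circleAverage_const]
    rw [← h1]
    apply Real.circleAverage_mono
    · exact hPc.continuousOn.circleIntegrable hr0.le
    · exact (hSr.add continuousOn_const).circleIntegrable hr0.le
    · intro y hy
      rw [abs_of_pos hr0] at hy
      exact (hP y hy).2
  -- the maximum principle
  obtain ⟨U, hU⟩ : ∃ U, U = V ∩ ball (0:ℂ) r := ⟨_, rfl⟩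
  have hUo : IsOpen U := by rw [hU]; exact hV.inter isOpen_ball
  have hUb : Bornology.IsBounded U := by
    rw [hU]; exact isBounded_ball.subset inter_subset_right
  have hUcl : closure U ⊆ closedBall (0:ℂ) r := by
    rw [hU]
    exact (closure_mono inter_subset_right).trans closure_ball_subset_closedBall
  have hUclV : closure U ⊆ closure V := by rw [hU]; exact closure_mono inter_subset_left
  have hzU : z ∈ U := by
    rw [hU]
    exact ⟨hz, by rwa [mem_ball_zero_iff]⟩
  have hf : DiffContOnCl ℂ (fun y => K y * Complex.exp (-P.eval y)) U := by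
    apply DifferentiableOn.diffContOnCl
    apply DifferentiableOn.mul
    · exact hK.mono (hUcl.trans hsub)
    · exact (P.differentiable.neg.cexp).differentiableOn
  have hn : ∀ y : ℂ, ‖K y * Complex.exp (-P.eval y)‖ = ‖K y‖ * Real.exp (-(P.eval y).re) := by
    intro y
    rw [norm_mul, Complex.norm_exp, Complex.neg_re]
  have hfrU : ∀ y ∈ frontier U, ‖K y * Complex.exp (-P.eval y)‖ ≤ 1 := by
    intro y hy
    have hyc : y ∈ closure U := frontier_subset_closure hy
    have hyU : y ∉ U := by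
      rw [hUo.frontier_eq] at hy
      exact hy.2
    have hyb : y ∈ ball (0:ℂ) 1 := hsub (hUcl hyc)
    have hyr : ‖y‖ ≤ r := by
      have := hUcl hyc
      rwa [mem_closedBall_zero_iff] at this
    rw [hn]
    rcases hyr.lt_or_eq with h | h
    · have hyV : y ∉ V := by
        intro hyV
        apply hyU
        rw [hU]
        exact ⟨hyV, by rwa [mem_ball_zero_iff]⟩
      have hyf : y ∈ frontier V := by
        rw [hV.frontier_eq]
        exact ⟨hUclV hyc, hyV⟩
      have h1 := hfr y ⟨hyf, hyb⟩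
      have h2 := (h20 r hr0 P hP0 y (by rwa [mem_ball_zero_iff])).1
      have h3 : Real.exp (-(P.eval y).re) ≤ 1 := Real.exp_le_one_iff.2 (by linarith)
      calc ‖K y‖ * Real.exp (-(P.eval y).re) ≤ 1 * 1 :=
            mul_le_mul h1 h3 (Real.exp_pos _).le zero_le_one
        _ = 1 := one_mul 1
    · have hys : y ∈ sphere (0:ℂ) r := by rwa [mem_sphere_zero_iff_norm]
      have h1 := hcl y ⟨hUclV hyc, hyb⟩
      have h2 := (hP y hys).1
      calc ‖K y‖ * Real.exp (-(P.eval y).re) ≤
            Real.exp (S y) * Real.exp (-(P.eval y).re) :=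
            mul_le_mul_of_nonneg_right h1 (Real.exp_pos _).le
        _ = Real.exp (S y - (P.eval y).re) := by rw [← Real.exp_add]; congr 1
        _ ≤ 1 := Real.exp_le_one_iff.2 (by linarith)
  have hmax := Complex.norm_le_of_forall_mem_frontier_norm_le hUb hf hfrU (subset_closure hzU)
  rw [hn] at hmax
  have h1 : ‖K z‖ ≤ Real.exp ((P.eval z).re) := by
    calc ‖K z‖ = ‖K z‖ * Real.exp (-(P.eval z).re) * Real.exp ((P.eval z).re) := by
          rw [mul_assoc, ← Real.exp_add, neg_add_cancel, Real.exp_zero, mul_one]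
      _ ≤ 1 * Real.exp ((P.eval z).re) := mul_le_mul_of_nonneg_right hmax (Real.exp_pos _).le
      _ = Real.exp ((P.eval z).re) := one_mul _
  refine h1.trans (Real.exp_le_exp.2 ?_)
  refine (h20 r hr0 P hP0 z (by rwa [mem_ball_zero_iff])).2.trans ?_
  apply mul_le_mul_of_nonneg_left hav
  exact div_nonneg (by positivity) (by linarith)

/-- row 22 -/
theorem nsh22 (h19 : P19) (h20 : P20) : P22 := by
  intro K S V hK hS hS0 hV hV1 hcl hfr hlim z hz
  have hz1 : ‖z‖ < 1 := by
    have := hV1 hz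
    rwa [mem_ball_zero_iff] at this
  have hid : Tendsto (fun r : ℝ => r) (𝓝[<] (1:ℝ)) (𝓝 1) :=
    tendsto_id.mono_left nhdsWithin_le_nhds
  have h1 : Tendsto (fun r : ℝ => Real.exp ((r + ‖z‖) / (r - ‖z‖) *
      (Real.circleAverage S 0 r + (1 - r)))) (𝓝[<] (1:ℝ))
      (𝓝 (Real.exp ((1 + ‖z‖) / (1 - ‖z‖) * (0 + (1 - 1))))) := by
    apply (Real.continuous_exp.tendsto _).comp
    apply Tendsto.mul
    · exact (hid.add_const _).div (hid.sub_const _) (by linarith)
    · exact hlim.add (hid.const_sub 1)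
  have h2 : Real.exp ((1 + ‖z‖) / (1 - ‖z‖) * (0 + (1 - 1))) = 1 := by simp
  rw [h2] at h1
  refine ge_of_tendsto h1 ?_
  have h3 : Ioo ‖z‖ 1 ∈ 𝓝[<] (1:ℝ) := Ioo_mem_nhdsLT hz1
  filter_upwards [h3] with r hr
  exact nsh22_aux h19 h20 hK hS hS0 hV hV1 hcl hfr hz hr.1 hr.2 (by linarith [hr.2])

end Pool.Agent.NSH
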